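import Mathlib

/-!
# STAY: expansion inequalities from Taylor coefficients
-/

set_option autoImplicit false

namespace Pool.Agent.JH

open Set Metric Finset

theorem norm_pow_sub_pow_le' {x y : ℂ} {ρ : ℝ} (hx : ‖x‖ ≤ ρ) (hy : ‖y‖ ≤ ρ) (k : ℕ) :
    ‖x ^ k - y ^ k‖ ≤ k * ρ ^ (k - 1) * ‖x - y‖ := by
  have hρ : 0 ≤ ρ := (norm_nonneg x).trans hx
  have h1 : x ^ k - y ^ k = (∑ i ∈ range k, x ^ i * y ^ (k - 1 - i)) * (x - y) :=
    ((Commute.all x y).geom_sum₂_mul k).symm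
  rw [h1, norm_mul]
  refine mul_le_mul_of_nonneg_right ?_ (norm_nonneg _)
  calc ‖∑ i ∈ range k, x ^ i * y ^ (k - 1 - i)‖ ≤ ∑ i ∈ range k, ‖x ^ i * y ^ (k - 1 - i)‖ :=
        norm_sum_le _ _
    _ ≤ ∑ i ∈ range k, ρ ^ (k - 1) := by
        refine sum_le_sum fun i hi => ?_
        rw [Finset.mem_range] at hi
        rw [norm_mul, norm_pow, norm_pow]
        calc ‖x‖ ^ i * ‖y‖ ^ (k - 1 - i) ≤ ρ ^ i * ρ ^ (k - 1 - i) := by gcongr
          _ = ρ ^ (k - 1) := by rw [← pow_add]; congr 1; omega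
    _ = k * ρ ^ (k - 1) := by rw [sum_const, card_range, nsmul_eq_mul]

/-- two point expansion -/
theorem two_point {n : ℕ} {T : ℕ → ℂ} {F : ℂ → ℂ} {v : ℂ} {ρ : ℝ}
    (hF : ∀ z, F z = ∑ k ∈ range (n + 2), T k * (z - v) ^ k) {z w : ℂ}
    (hz : z ∈ closedBall v ρ) (hw : w ∈ closedBall v ρ) :
    (‖T 1‖ - ∑ k ∈ range n, (k + 2) * ‖T (k + 2)‖ * ρ ^ (k + 1)) * ‖z - w‖ ≤ ‖F z - F w‖ := by
  rw [mem_closedBall, dist_eq_norm] at hz hw
  have h1 : F z - F w = T 1 * (z - w) +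
      ∑ k ∈ range n, T (k + 2) * ((z - v) ^ (k + 2) - (w - v) ^ (k + 2)) := by
    rw [hF, hF, ← sum_sub_distrib, sum_range_succ', sum_range_succ']
    simp only [pow_zero, mul_one, sub_self, add_zero, zero_add, pow_one]
    rw [add_comm]
    congr 1
    · ring
    · refine sum_congr rfl fun k _ => ?_
      rw [show k + 1 + 1 = k + 2 from rfl]; ring
  have h2 : ‖∑ k ∈ range n, T (k + 2) * ((z - v) ^ (k + 2) - (w - v) ^ (k + 2))‖ ≤
      (∑ k ∈ range n, (k + 2) * ‖T (k + 2)‖ * ρ ^ (k + 1)) * ‖z - w‖ := by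
    rw [sum_mul]
    refine (norm_sum_le _ _).trans (sum_le_sum fun k _ => ?_)
    rw [norm_mul]
    have h3 := norm_pow_sub_pow_le' hz hw (k + 2)
    have h4 : (z - v) - (w - v) = z - w := by ring
    rw [h4, show k + 2 - 1 = k + 1 from rfl] at h3
    push_cast at h3
    calc ‖T (k + 2)‖ * ‖(z - v) ^ (k + 2) - (w - v) ^ (k + 2)‖
        ≤ ‖T (k + 2)‖ * (((k : ℝ) + 2) * ρ ^ (k + 1) * ‖z - w‖) := by gcongr
      _ = _ := by ring
  rw [h1]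
  have h5 : ‖T 1 * (z - w)‖ - ‖∑ k ∈ range n, T (k + 2) * ((z - v) ^ (k + 2) - (w - v) ^ (k + 2))‖
      ≤ ‖T 1 * (z - w) + ∑ k ∈ range n, T (k + 2) * ((z - v) ^ (k + 2) - (w - v) ^ (k + 2))‖ := by
    have := norm_sub_norm_le (T 1 * (z - w))
      (-∑ k ∈ range n, T (k + 2) * ((z - v) ^ (k + 2) - (w - v) ^ (k + 2)))
    rw [norm_neg, sub_neg_eq_add] at this
    exact this
  rw [norm_mul] at h5
  rw [sub_mul]
  linarith

/-- expansion about the centre -/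
theorem one_point {n : ℕ} {T : ℕ → ℂ} {F : ℂ → ℂ} {v : ℂ} {ρ : ℝ}
    (hF : ∀ z, F z = ∑ k ∈ range (n + 2), T k * (z - v) ^ k) {z : ℂ}
    (hz : z ∈ closedBall v ρ) :
    (‖T 1‖ - ∑ k ∈ range n, ‖T (k + 2)‖ * ρ ^ (k + 1)) * ‖z - v‖ ≤ ‖F z - F v‖ := by
  rw [mem_closedBall, dist_eq_norm] at hz
  have h1 : F z - F v = T 1 * (z - v) + ∑ k ∈ range n, T (k + 2) * (z - v) ^ (k + 2) := by
    rw [hF, hF, ← sum_sub_distrib, sum_range_succ', sum_range_succ']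
    simp only [pow_zero, mul_one, sub_self, add_zero, zero_add, pow_one]
    rw [add_comm]
    congr 1
    · ring
    · refine sum_congr rfl fun k _ => ?_
      rw [show k + 1 + 1 = k + 2 from rfl, zero_pow (by omega)]; ring
  have h2 : ‖∑ k ∈ range n, T (k + 2) * (z - v) ^ (k + 2)‖ ≤
      (∑ k ∈ range n, ‖T (k + 2)‖ * ρ ^ (k + 1)) * ‖z - v‖ := by
    rw [sum_mul]
    refine (norm_sum_le _ _).trans (sum_le_sum fun k _ => ?_)
    rw [norm_mul, norm_pow, pow_succ ‖z - v‖ (k + 1)]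
    have : ‖z - v‖ ^ (k + 1) ≤ ρ ^ (k + 1) := by gcongr
    calc ‖T (k + 2)‖ * (‖z - v‖ ^ (k + 1) * ‖z - v‖)
        ≤ ‖T (k + 2)‖ * (ρ ^ (k + 1) * ‖z - v‖) := by gcongr
      _ = _ := by ring
  rw [h1]
  have h5 : ‖T 1 * (z - v)‖ - ‖∑ k ∈ range n, T (k + 2) * (z - v) ^ (k + 2)‖
      ≤ ‖T 1 * (z - v) + ∑ k ∈ range n, T (k + 2) * (z - v) ^ (k + 2)‖ := by
    have := norm_sub_norm_le (T 1 * (z - v)) (-∑ k ∈ range n, T (k + 2) * (z - v) ^ (k + 2))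
    rw [norm_neg, sub_neg_eq_add] at this
    exact this
  rw [norm_mul] at h5
  rw [sub_mul]
  linarith

/-- the image of a disc -/
theorem disc_image {n : ℕ} {T : ℕ → ℂ} {F : ℂ → ℂ} {v : ℂ} {ρ : ℝ}
    (hF : ∀ z, F z = ∑ k ∈ range (n + 1), T k * (z - v) ^ k) {z : ℂ}
    (hz : z ∈ closedBall v ρ) :
    ‖F z - T 0‖ ≤ ∑ k ∈ range n, ‖T (k + 1)‖ * ρ ^ (k + 1) := by
  rw [mem_closedBall, dist_eq_norm] at hz
  rw [hF, sum_range_succ']
  simp only [pow_zero, mul_one, add_sub_cancel_right]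
  refine (norm_sum_le _ _).trans (sum_le_sum fun k _ => ?_)
  rw [norm_mul, norm_pow]
  gcongr

end Pool.Agent.JH
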