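import Mathlib

/-!
# SLIFT: lifting of ray segments into discs, tails of rays, landing points

Abstract form: `c i` are paths on `(0, ∞)` (rays parametrised by the level), `F (c i s) = c (σ i) (7 s)`.
-/

set_option autoImplicit false

namespace Pool.Agent.JH

open Set Metric Filter Topology

/-- A segment of a path which starts in the disc `closedBall z₀ R`, and is mapped by `F` into the disc
`closedBall w ρ`, lies in `ball z₀ r`. -/
theorem seg_lift {F : ℂ → ℂ} {c : ℝ → ℂ} {a b : ℝ} (hc : ContinuousOn c (Icc a b)) {z₀ w : ℂ}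
    {R r μ ρ : ℝ} (hμ : 0 < μ)
    (hexp : ∀ z ∈ closedBall z₀ R, μ * ‖z - z₀‖ ≤ ‖F z - F z₀‖)
    (himg : ∀ s ∈ Icc a b, F (c s) ∈ closedBall w ρ) (hr : ρ + ‖F z₀ - w‖ < μ * r) (hrR : r ≤ R)
    (hb : c b ∈ closedBall z₀ R) : ∀ s ∈ Icc a b, c s ∈ ball z₀ r := by
  have key : ∀ s ∈ Icc a b, c s ∈ closedBall z₀ R → c s ∈ ball z₀ r := by
    intro s hs hsR
    have h1 := hexp _ hsR
    have h2 := himg s hs
    rw [mem_closedBall, dist_eq_norm] at h2
    have h3 : ‖F (c s) - F z₀‖ ≤ ‖F (c s) - w‖ + ‖F z₀ - w‖ := by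
      have : F (c s) - F z₀ = (F (c s) - w) - (F z₀ - w) := by ring
      rw [this]; exact norm_sub_le _ _
    rw [mem_ball, dist_eq_norm]
    have h4 : μ * ‖c s - z₀‖ < μ * r := by linarith
    exact lt_of_mul_lt_mul_left h4 hμ.le
  intro s hs
  by_contra hcon
  rw [mem_ball, dist_eq_norm, not_lt] at hcon
  have hbI : b ∈ Icc a b := ⟨hs.1.trans hs.2, le_rfl⟩
  have hb' := key b hbI hb
  rw [mem_ball, dist_eq_norm] at hb'
  have hg : ContinuousOn (fun t => ‖c t - z₀‖) (Icc s b) :=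
    ((hc.mono (Icc_subset_Icc_left hs.1)).sub continuousOn_const).norm
  have hmem : r ∈ Icc (‖c b - z₀‖) (‖c s - z₀‖) := ⟨hb'.le, hcon⟩
  obtain ⟨t, ht, hte⟩ := intermediate_value_Icc' hs.2 hg hmem
  have htI : t ∈ Icc a b := ⟨hs.1.trans ht.1, ht.2⟩
  have hte' : ‖c t - z₀‖ = r := hte
  have := key t htI (by rw [mem_closedBall, dist_eq_norm, hte']; exact hrR)
  rw [mem_ball, dist_eq_norm, hte'] at this
  exact lt_irrefl _ this

/-- Tails of rays stay in the tail discs, and rays with the same tail disc land at the same point. -/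
theorem rays_land {n : ℕ} {F : ℂ → ℂ} {c : Fin n → ℝ → ℂ} {g : Fin n → ℂ} {σ : Fin n → Fin n}
    {P : Type*} {π : Fin n → P} {φ : P → P} {v : P → ℂ} {ρ μ : P → ℝ} (hFc : Continuous F)
    (hc : ∀ i, ContinuousOn (c i) (Ioi 0))
    (hF : ∀ i s, 0 < s → F (c i s) = c (σ i) (7 * s)) (hπ : ∀ i, π (σ i) = φ (π i))
    (hμ : ∀ i, 0 < μ (π i))
    (hexp : ∀ i, ∀ z ∈ closedBall (v (π i)) (ρ (π i)), ∀ w ∈ closedBall (v (π i)) (ρ (π i)),
      μ (π i) * ‖z - w‖ ≤ ‖F z - F w‖)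
    (hρ : ∀ i, ρ (φ (π i)) + ‖F (v (π i)) - v (φ (π i))‖ < μ (π i) * ρ (π i))
    {s₁ : ℝ} (hs₁ : 0 < s₁)
    (hst : ∀ i, ∀ s ∈ Icc (s₁ / 7) s₁, c i s ∈ closedBall (v (π i)) (ρ (π i)))
    (hlim : ∀ i, Tendsto (c i) (𝓝[>] 0) (𝓝 (g i))) :
    (∀ i s, 0 < s → s ≤ s₁ → c i s ∈ closedBall (v (π i)) (ρ (π i))) ∧
      (∀ i, g i ∈ closedBall (v (π i)) (ρ (π i))) ∧ (∀ i, F (g i) = g (σ i)) ∧
      ∀ i j, π i = π j → g i = g j := by
  have hρ0 : ∀ i, 0 ≤ ρ (π i) := by
    intro i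
    have := hst i s₁ ⟨by linarith, le_rfl⟩
    rw [mem_closedBall] at this
    exact dist_nonneg.trans this
  have hlev : ∀ k : ℕ, ∀ i, ∀ s ∈ Icc (s₁ / 7 ^ (k + 1)) (s₁ / 7 ^ k),
      c i s ∈ closedBall (v (π i)) (ρ (π i)) := by
    intro k
    induction k with
    | zero => intro i s hs; exact hst i s (by simpa using hs)
    | succ k ih =>
      intro i s hs
      have h7 : (0 : ℝ) < 7 ^ (k + 1 + 1) := by positivity
      have ha : 0 < s₁ / 7 ^ (k + 1 + 1) := by positivity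
      have hsub : Icc (s₁ / 7 ^ (k + 1 + 1)) (s₁ / 7 ^ (k + 1)) ⊆ Ioi (0 : ℝ) :=
        fun t ht => lt_of_lt_of_le ha ht.1
      have hb : c i (s₁ / 7 ^ (k + 1)) ∈ closedBall (v (π i)) (ρ (π i)) :=
        ih i _ ⟨le_rfl, by
          apply div_le_div_of_nonneg_left hs₁.le (by positivity)
          exact pow_le_pow_right₀ (by norm_num) (Nat.le_succ k)⟩
      refine ball_subset_closedBall (seg_lift (F := F) ((hc i).mono hsub) (hμ i)
        (fun z hz => hexp i z hz _ (mem_closedBall_self (hρ0 i))) ?_ (hρ i) le_rfl hb s hs)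
      intro t ht
      rw [hF i t (hsub ht), ← hπ]
      refine ih (σ i) _ ⟨?_, ?_⟩
      · have := ht.1
        rw [div_le_iff₀ (by positivity)] at this ⊢
        rw [pow_succ] at this
        linarith
      · have := ht.2
        rw [le_div_iff₀ (by positivity)] at this ⊢
        rw [pow_succ] at this
        linarith
  have htail : ∀ i s, 0 < s → s ≤ s₁ → c i s ∈ closedBall (v (π i)) (ρ (π i)) := by
    intro i s hs0 hs
    obtain ⟨k, hk⟩ := pow_unbounded_of_one_lt (s₁ / s) (show (1 : ℝ) < 7 by norm_num)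
    have hex : ∃ k : ℕ, s₁ / 7 ^ k < s := ⟨k, by
      rw [div_lt_iff₀ hs0] at hk
      rw [div_lt_iff₀ (by positivity)]; linarith⟩
    classical
    obtain ⟨h1, h2⟩ := And.intro (Nat.find_spec hex) (fun m => Nat.find_min hex (m := m))
    set K := Nat.find hex with hK
    have hK0 : K ≠ 0 := by
      intro h0
      rw [h0, pow_zero, div_one] at h1
      linarith
    obtain ⟨k', hk'⟩ := Nat.exists_eq_succ_of_ne_zero hK0
    have h3 := h2 k' (by omega)
    rw [not_lt] at h3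
    rw [hk'] at h1
    exact hlev k' i s ⟨h1.le, h3⟩
  have hg : ∀ i, g i ∈ closedBall (v (π i)) (ρ (π i)) := by
    intro i
    refine isClosed_closedBall.mem_of_tendsto (hlim i) ?_
    filter_upwards [Ioc_mem_nhdsGT hs₁] with s hs
    exact htail i s hs.1 hs.2
  have hFg : ∀ i, F (g i) = g (σ i) := by
    intro i
    have h1 : Tendsto (fun s => F (c i s)) (𝓝[>] 0) (𝓝 (F (g i))) :=
      (hFc.tendsto _).comp (hlim i)
    have h2 : Tendsto (fun s : ℝ => 7 * s) (𝓝[>] 0) (𝓝[>] 0) := by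
      refine tendsto_nhdsWithin_iff.2 ⟨?_, ?_⟩
      · have : Tendsto (fun s : ℝ => 7 * s) (𝓝 0) (𝓝 (7 * 0)) := (continuous_const_mul 7).tendsto 0
        rw [mul_zero] at this
        exact this.mono_left nhdsWithin_le_nhds
      · filter_upwards [self_mem_nhdsWithin] with s hs
        have hs' : (0 : ℝ) < s := hs
        show (0 : ℝ) < 7 * s
        linarith
    have h3 : Tendsto (fun s => c (σ i) (7 * s)) (𝓝[>] 0) (𝓝 (g (σ i))) := (hlim (σ i)).comp h2
    refine tendsto_nhds_unique (h1.congr' ?_) h3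
    filter_upwards [self_mem_nhdsWithin] with s hs
    exact hF i s hs
  refine ⟨htail, hg, hFg, ?_⟩
  -- coincidence of landing points
  by_contra hcon
  push Not at hcon
  obtain ⟨i₀, j₀, hij₀, hne₀⟩ := hcon
  classical
  set S : Finset (Fin n × Fin n) := Finset.univ.filter (fun x => π x.1 = π x.2) with hS
  have hSne : S.Nonempty := ⟨(i₀, j₀), by rw [hS, Finset.mem_filter]; exact ⟨Finset.mem_univ _, hij₀⟩⟩
  obtain ⟨⟨i, j⟩, hijS, hmax⟩ := S.exists_max_image (fun x => ‖g x.1 - g x.2‖ / ρ (π x.1)) hSne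
  have hπij : π i = π j := (Finset.mem_filter.1 hijS).2
  have hρpos : ∀ i, 0 < ρ (π i) := by
    intro i
    have h1 := hρ i
    have h2 : 0 ≤ ρ (φ (π i)) := by rw [← hπ]; exact hρ0 _
    have h3 : 0 < μ (π i) * ρ (π i) := lt_of_le_of_lt (by positivity) h1
    exact (pos_iff_pos_of_mul_pos h3).1 (hμ i)
  have hM : 0 < ‖g i - g j‖ / ρ (π i) := by
    refine lt_of_lt_of_le ?_ (hmax (i₀, j₀) (by rw [hS, Finset.mem_filter]
                                                exact ⟨Finset.mem_univ _, hij₀⟩))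
    exact div_pos (norm_pos_iff.2 (sub_ne_zero.2 hne₀)) (hρpos _)
  have h1 : μ (π i) * ‖g i - g j‖ ≤ ‖g (σ i) - g (σ j)‖ := by
    rw [← hFg, ← hFg]
    exact hexp i _ (hg i) _ (by rw [hπij]; exact hg j)
  have h2 := hmax (σ i, σ j) (by
    rw [hS, Finset.mem_filter]
    exact ⟨Finset.mem_univ _, by simp only [hπ, hπij]⟩)
  simp only at h2
  rw [hπ, div_le_iff₀ (by rw [← hπ]; exact hρpos _)] at h2
  have h3 : ρ (φ (π i)) < μ (π i) * ρ (π i) := by
    have := hρ i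
    have h4 : 0 ≤ ‖F (v (π i)) - v (φ (π i))‖ := norm_nonneg _
    linarith
  have h5 : ‖g i - g j‖ = ‖g i - g j‖ / ρ (π i) * ρ (π i) := by
    rw [div_mul_cancel₀ _ (ne_of_gt (hρpos i))]
  have h6 : ‖g i - g j‖ / ρ (π i) * ρ (φ (π i)) < ‖g i - g j‖ / ρ (π i) * (μ (π i) * ρ (π i)) :=
    mul_lt_mul_of_pos_left h3 hM
  have h7 : ‖g i - g j‖ / ρ (π i) * (μ (π i) * ρ (π i)) = μ (π i) * ‖g i - g j‖ := by
    rw [mul_left_comm, ← h5]
  linarith

end Pool.Agent.JH
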