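import Pool.Agent.Lib.MP_8ebc20_an.Bas2

/-!
# STRAP: trap discs give hyperbolicity

If a cycle of closed discs is mapped into the open discs and every critical point of the monic polynomial
`f` is captured by one of them, then `Hyp f (frontier (KSet f))`.
-/

set_option autoImplicit false

namespace Pool.Agent.JH

open Polynomial Set Metric Filter Topology

variable {f : ℂ[X]}

theorem it_pre_int (hd : 2 ≤ f.natDegree) (n : ℕ) {z : ℂ}
    (hz : (ev f)^[n] z ∈ interior (KSet f)) : z ∈ interior (KSet f) := by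
  have ho : IsOpen ((ev f)^[n] ⁻¹' interior (KSet f)) := isOpen_interior.preimage (continuous_it n)
  refine mem_interior.2 ⟨_, fun w hw => ?_, ho, hz⟩
  exact (it_mem_K hd n).1 (interior_subset hw)

theorem hyp_of_traps (hd : 2 ≤ f.natDegree) (hm : f.Monic) {m : ℕ} (hm0 : 0 < m) {c : ℕ → ℂ}
    {r : ℕ → ℝ}
    (htr : ∀ i < m, ∀ z ∈ closedBall (c i) (r i), ev f z ∈ ball (c ((i + 1) % m)) (r ((i + 1) % m)))
    (hcr : ∀ ζ : ℂ, f.derivative.eval ζ = 0 → ∃ n i : ℕ, i < m ∧
      (ev f)^[n] ζ ∈ closedBall (c i) (r i)) :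
    Hyp f (frontier (KSet f)) ∧ ∀ i < m, closedBall (c i) (r i) ⊆ interior (KSet f) := by
  have hmod : ∀ i, (i + 1) % m < m := fun i => Nat.mod_lt _ hm0
  -- orbits stay in the union of the discs
  have horb : ∀ n : ℕ, ∀ i < m, ∀ z ∈ closedBall (c i) (r i), ∃ j < m,
      (ev f)^[n] z ∈ closedBall (c j) (r j) := by
    intro n
    induction n with
    | zero => intro i hi z hz; exact ⟨i, hi, hz⟩
    | succ n ih =>
      intro i hi z hz
      rw [Function.iterate_succ_apply]
      exact ih _ (hmod i) _ (ball_subset_closedBall (htr i hi z hz))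
  have hbdd : Bornology.IsBounded (⋃ i ∈ Finset.range m, closedBall (c i) (r i)) := by
    rw [Bornology.isBounded_biUnion_finset]
    exact fun i _ => isBounded_closedBall
  have hK : ∀ i < m, closedBall (c i) (r i) ⊆ KSet f := by
    intro i hi z hz
    refine hbdd.subset ?_
    rintro _ ⟨n, rfl⟩
    obtain ⟨j, hj, hjz⟩ := horb n i hi z hz
    exact mem_biUnion (Finset.mem_coe.2 (Finset.mem_range.2 hj)) hjz
  have hint : ∀ i < m, closedBall (c i) (r i) ⊆ interior (KSet f) := by
    intro i hi z hz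
    refine it_pre_int hd 1 ?_
    have h1 := htr i hi z hz
    have h2 : ball (c ((i + 1) % m)) (r ((i + 1) % m)) ⊆ interior (KSet f) :=
      interior_maximal (ball_subset_closedBall.trans (hK _ (hmod i))) isOpen_ball
    exact h2 h1
  have hcrit : ∀ ζ : ℂ, f.derivative.eval ζ = 0 → ζ ∈ interior (KSet f) := by
    intro ζ hζ
    obtain ⟨n, i, hi, hn⟩ := hcr ζ hζ
    exact it_pre_int hd n (hint i hi hn)
  refine ⟨⟨hd, hm, rfl, fun ζ hζ => interior_subset (hcrit ζ hζ), ?_⟩, hint⟩
  -- the postcritical set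
  have hder : f.derivative ≠ 0 := by
    intro h0
    have := Polynomial.derivative_eq_zero.1 h0
    omega
  have hfin : {ζ : ℂ | f.derivative.eval ζ = 0}.Finite := by
    refine (f.derivative.roots.toFinset.finite_toSet).subset ?_
    intro ζ hζ
    rw [Finset.mem_coe, Multiset.mem_toFinset, Polynomial.mem_roots hder]
    exact hζ
  have hcr' : ∀ ζ : ℂ, ∃ n : ℕ, f.derivative.eval ζ = 0 →
      ∃ i < m, (ev f)^[n] ζ ∈ closedBall (c i) (r i) := by
    intro ζ
    by_cases hζ : f.derivative.eval ζ = 0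
    · obtain ⟨n, i, hi, hn⟩ := hcr ζ hζ
      exact ⟨n, fun _ => ⟨i, hi, hn⟩⟩
    · exact ⟨0, fun h => absurd h hζ⟩
  choose N hN using hcr'
  set A : Set ℂ := (⋃ ζ ∈ {ζ : ℂ | f.derivative.eval ζ = 0},
    ((Finset.range (N ζ)).image (fun j => (ev f)^[j] ζ) : Set ℂ)) ∪
    ⋃ i ∈ Finset.range m, closedBall (c i) (r i) with hA
  have hAc : IsClosed A := by
    refine IsClosed.union ?_ ?_
    · exact hfin.isClosed_biUnion fun ζ _ => (Finset.finite_toSet _).isClosed
    · exact (Finset.range m).finite_toSet.isClosed_biUnion fun i _ => isClosed_closedBall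
  have hAint : A ⊆ interior (KSet f) := by
    rintro w (hw | hw)
    · obtain ⟨ζ, hζ, hw⟩ := mem_iUnion₂.1 hw
      rw [Finset.mem_coe, Finset.mem_image] at hw
      obtain ⟨j, hj, rfl⟩ := hw
      rw [Finset.mem_range] at hj
      obtain ⟨i, hi, hn⟩ := hN ζ hζ
      refine it_pre_int hd (N ζ - j) ?_
      rw [← Function.iterate_add_apply, Nat.sub_add_cancel hj.le]
      exact hint i hi hn
    · obtain ⟨i, hi, hw⟩ := mem_iUnion₂.1 hw
      exact hint i (Finset.mem_range.1 (Finset.mem_coe.1 hi)) hw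
  have hPC : PC f ⊆ A := by
    refine closure_minimal ?_ hAc
    rintro w ⟨ζ, n, -, hζ, rfl⟩
    rcases lt_or_ge n (N ζ) with h | h
    · left
      refine mem_biUnion (show ζ ∈ {ζ : ℂ | f.derivative.eval ζ = 0} from hζ) ?_
      rw [Finset.mem_coe, Finset.mem_image]
      exact ⟨n, Finset.mem_range.2 h, rfl⟩
    · right
      obtain ⟨i, hi, hn⟩ := hN ζ hζ
      obtain ⟨j, hj, hjz⟩ := horb (n - N ζ) i hi _ hn
      rw [← Function.iterate_add_apply, Nat.sub_add_cancel h] at hjz
      exact mem_biUnion (Finset.mem_coe.2 (Finset.mem_range.2 hj)) hjz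
  exact (disjoint_interior_frontier (s := KSet f)).mono_left (hPC.trans hAint)

end Pool.Agent.JH
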